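import Pool.Agent.H16.Hel2

set_option autoImplicit false

namespace Pool.Agent.Results.MP_0878ad_co.Yes

/-- `S` is partitionable in the poset `X`: some `x` lies below two distinct points of `S` and
above two distinct points of `S`. -/
def Partitionable {X : Type} [PartialOrder X] (S : Set X) : Prop :=
  ∃ x : X, (∃ a ∈ S, ∃ b ∈ S, a ≠ b ∧ x ≤ a ∧ x ≤ b) ∧ ∃ a ∈ S, ∃ b ∈ S, a ≠ b ∧ a ≤ x ∧ b ≤ x

/-- The Helly number: the supremum of the sizes of nonpartitionable subsets. -/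
noncomputable def helly (X : Type) [PartialOrder X] : ℕ∞ :=
  ⨆ S : {S : Set X // ¬ Partitionable S}, S.1.encard

theorem result (X : Type) [PartialOrder X] [Infinite X] (hX : helly X ≠ ⊤) (E : Set X)
    (hE : E.Finite) : ∃ F : Set X, F.Finite ∧ E ⊆ F ∧ helly F = helly X := by
  classical
  have hle : ∀ S : Set X, ¬ Partitionable S → S.encard ≤ helly X := fun S hS =>
    le_iSup (fun S : {S : Set X // ¬ Partitionable S} => S.1.encard) ⟨S, hS⟩
  have : Nonempty {S : Set X // ¬ Partitionable S} :=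
    ⟨⟨∅, by rintro ⟨x, ⟨a, ha, -⟩, -⟩; exact ha⟩⟩
  obtain ⟨⟨S0, hS0⟩, h0⟩ := ENat.exists_eq_iSup_of_lt_top (lt_top_iff_ne_top.2 hX)
  have h0' : S0.encard = helly X := h0
  obtain ⟨k, hk⟩ := ENat.ne_top_iff_exists.1 hX
  obtain ⟨f, hf1, hf2⟩ := Pool.Agent.H37.PD.dilw (R := fun a b : X => a ≤ b) le_refl
    (fun _ _ _ => le_trans) (fun _ _ => le_antisymm) Set.univ k fun M _ hM => by
      have h1 := hle (M : Set X) (by
        rintro ⟨x, ⟨a, ha, b, hb, hab, h1, h2⟩, c, hc, -, -, -, h3, -⟩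
        exact hab ((hM c hc a ha (h3.trans h1)).symm.trans (hM c hc b hb (h3.trans h2))))
      rw [Set.encard_coe_eq_coe_finsetCard, ← hk] at h1
      exact_mod_cast h1
  have hS0f : S0.Finite := Set.finite_of_encard_eq_coe (h0'.trans hk.symm)
  obtain ⟨r, r1, r2, r3⟩ := Pool.Agent.H16.Hel.exists_fix k (fun x => ⟨f x, hf1 x trivial⟩)
    (fun a b h => hf2 a trivial b trivial (congrArg Fin.val h)) (E ∪ S0) (hE.union hS0f)
  refine ⟨Set.range r, r3, fun e he => ⟨e, r2 e (Or.inl he)⟩, le_antisymm ?_ ?_⟩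
  · refine iSup_le fun ⟨S, hS⟩ => ?_
    choose σ hσ using fun y : Set.range r => y.2
    have hinj : Function.Injective σ := fun a b h => Subtype.ext (by rw [← hσ, ← hσ, h])
    rw [← hinj.encard_image S]
    refine hle _ ?_
    rintro ⟨x, ⟨_, ⟨a, ha, rfl⟩, _, ⟨b, hb, rfl⟩, hab, h1, h2⟩, _, ⟨c, hc, rfl⟩, _, ⟨d, hd, rfl⟩,
      hcd, h3, h4⟩
    exact hS ⟨⟨r x, x, rfl⟩, ⟨a, ha, b, hb, fun h => hab (congrArg σ h),
      (r1 h1).trans (hσ a).le, (r1 h2).trans (hσ b).le⟩, c, hc, d, hd,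
      fun h => hcd (congrArg σ h), (hσ c).ge.trans (r1 h3), (hσ d).ge.trans (r1 h4)⟩
  · have h1 : ¬ Partitionable (Subtype.val ⁻¹' S0 : Set (Set.range r)) := by
      rintro ⟨x, ⟨a, ha, b, hb, hab, h1, h2⟩, c, hc, d, hd, hcd, h3, h4⟩
      exact hS0 ⟨x.1, ⟨a.1, ha, b.1, hb, fun h => hab (Subtype.ext h), h1, h2⟩, c.1, hc, d.1, hd,
        fun h => hcd (Subtype.ext h), h3, h4⟩
    refine le_trans ?_ (le_iSup (fun S : {S : Set (Set.range r) // ¬ Partitionable S} =>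
      S.1.encard) ⟨_, h1⟩)
    rw [← h0', ← Subtype.val_injective.encard_image, Set.image_preimage_eq_of_subset]
    intro s hs
    exact ⟨⟨s, s, r2 s (Or.inr hs)⟩, rfl⟩

end Pool.Agent.Results.MP_0878ad_co.Yes
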